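import Pool.Agent.helper64.OT.SpecG
import Pool.Agent.helper24.OT.MF1

set_option autoImplicit false

namespace Pool.Agent.OG

open Finset Pool.Agent.OT

theorem MFS (hPSS : PSS_stmt) (hCRR : CRR_stmt) (hCSB : CSB_stmt) : MFS_stmt := by
  intro p _ χ S hχ hS
  obtain ⟨hpsi, hsum⟩ := hPSS p S hS
  have h0 : ∀ x : ZMod p, 0 ≤ psS S x := fun x => (hpsi x).1
  have h1 : ∀ x : ZMod p, psS S x ≤ 1 := fun x => (hpsi x).2
  set N : ℝ := (p : ℝ) / S.card with hN
  have hN0 : 0 ≤ N := by rw [hN]; positivity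
  have hone := MF1_one (p := p) (psS S) N hN0 h0 h1 hsum
  have htwo := MF1_two (p := p) (psS S) N hN0 h0 h1 hsum
  set W : ZMod p → ZMod p → ZMod p → ZMod p → ℝ := fun a b c d => psS S a * psS S b * psS S c * psS S d with hW
  have a12 : MF1_G (fun a b c d : ZMod p => MF1_e a b * W a b c d) ≤ N ^ 3 := hone.1
  have a34 : MF1_G (fun a b c d : ZMod p => MF1_e c d * W a b c d) ≤ N ^ 3 := hone.2
  have a13 : MF1_G (fun a b c d : ZMod p => MF1_e a c * W a b c d) ≤ N ^ 3 := by
    rw [MF1_swap]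
    refine le_trans (le_of_eq ?_) hone.1
    congr 1; funext a b c d; simp only [hW]; ring
  have a24 : MF1_G (fun a b c d : ZMod p => MF1_e b d * W a b c d) ≤ N ^ 3 := by
    rw [MF1_swap]
    refine le_trans (le_of_eq ?_) hone.2
    congr 1; funext a b c d; simp only [hW]; ring
  have a14 : MF1_G (fun a b c d : ZMod p => MF1_e a d * W a b c d) ≤ N ^ 3 := by
    rw [MF1_rot]
    refine le_trans (le_of_eq ?_) hone.1
    congr 1; funext a b c d; simp only [hW]; ring
  have a23 : MF1_G (fun a b c d : ZMod p => MF1_e b c * W a b c d) ≤ N ^ 3 := by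
    rw [MF1_rot]
    refine le_trans (le_of_eq ?_) hone.2
    congr 1; funext a b c d; simp only [hW]; ring
  have b1 : MF1_G (fun a b c d : ZMod p => MF1_e a b * MF1_e c d * W a b c d) ≤ N ^ 2 := htwo
  have b2 : MF1_G (fun a b c d : ZMod p => MF1_e a d * MF1_e b c * W a b c d) ≤ N ^ 2 := by
    rw [MF1_rot]
    refine le_trans (le_of_eq ?_) htwo
    congr 1; funext a b c d; simp only [hW]; ring
  have b3 : MF1_G (fun a b c d : ZMod p => MF1_e a c * MF1_e b d * W a b c d) ≤ N ^ 2 := by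
    rw [MF1_swap]
    refine le_trans (le_of_eq ?_) htwo
    congr 1; funext a b c d; simp only [hW]; ring
  have hpt := MF1_G_mono (p := p) (fun a b c d => W a b c d * ‖CS χ a b c d‖ ^ 2)
    (fun a b c d => ∑ lam ∈ univ.filter (fun lam : ZMod p => lam ≠ 0 ∧ lam ≠ 1),
        HH χ lam * (fun lam a b c d => if qq lam a b c d = 0 then W a b c d else 0) lam a b c d +
      ((p : ℝ) + 1) ^ 2 * (MF1_e a b * MF1_e c d * W a b c d + MF1_e a d * MF1_e b c * W a b c d +
        MF1_e a c * MF1_e b d * W a b c d) +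
      9 * p * (MF1_e a b * W a b c d + MF1_e a c * W a b c d + MF1_e a d * W a b c d + MF1_e b c * W a b c d +
        MF1_e b d * W a b c d + MF1_e c d * W a b c d))
    (fun a b c d => MF1_point hCRR hCSB p χ hχ a b c d (W a b c d)
      (mul_nonneg (mul_nonneg (mul_nonneg (h0 a) (h0 b)) (h0 c)) (h0 d)))
  rw [MF1_G_add, MF1_G_add, MF1_G_sum, MF1_G_mul, MF1_G_mul, MF1_G_add, MF1_G_add, MF1_G_add, MF1_G_add,
    MF1_G_add, MF1_G_add, MF1_G_add] at hpt
  rw [MF1_G_eq] at hpt
  have hnn : ∀ lam : ZMod p, MF1_G ((fun lam a b c d => if qq lam a b c d = 0 then W a b c d else 0) lam) =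
      nS S lam := by
    intro lam
    rw [MF1_G_eq]
    rfl
  simp only [hnn] at hpt
  have hp1 : (0 : ℝ) ≤ ((p : ℝ) + 1) ^ 2 := by positivity
  have hp9 : (0 : ℝ) ≤ 9 * (p : ℝ) := by positivity
  have c1 := mul_le_mul_of_nonneg_left (add_le_add (add_le_add b1 b2) b3) hp1
  have c2 := mul_le_mul_of_nonneg_left
    (add_le_add (add_le_add (add_le_add (add_le_add (add_le_add a12 a13) a14) a23) a24) a34) hp9
  refine le_trans hpt ?_
  linarith

end Pool.Agent.OG
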