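import Pool.Agent.helper35.OT.Spec

/-!
Row EVL of project OT (MP_050f5b_nt): values of `P(X, g)`.
-/

set_option autoImplicit false

namespace Pool.Agent.helper35.OT

open Finset

theorem EVL_cast (q : ℚ) : ‖(q : ℂ)‖ = |(q : ℝ)| := by
  rw [← Complex.ofReal_ratCast, Complex.norm_real, Real.norm_eq_abs]

theorem EVL_nrm (f : PowerSeries ℚ) (s : ℝ) (x : ℂ) (hx : ‖x‖ ≤ s)
    (hf : Summable fun n => |((PowerSeries.coeff n f : ℚ) : ℝ)| * s ^ n) :
    Summable fun n => ‖((PowerSeries.coeff n f : ℚ) : ℂ) * x ^ n‖ := by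
  refine Summable.of_nonneg_of_le (fun n => norm_nonneg _) (fun n => ?_) hf
  rw [norm_mul, norm_pow, EVL_cast]
  exact mul_le_mul_of_nonneg_left (pow_le_pow_left₀ (norm_nonneg _) hx n) (abs_nonneg _)

theorem EVL_add (f g : PowerSeries ℚ) (s : ℝ) (hs : 0 < s)
    (hf : Summable fun n => |((PowerSeries.coeff n f : ℚ) : ℝ)| * s ^ n)
    (hg : Summable fun n => |((PowerSeries.coeff n g : ℚ) : ℝ)| * s ^ n) :
    (Summable fun n => |((PowerSeries.coeff n (f + g) : ℚ) : ℝ)| * s ^ n) ∧
    ∀ x : ℂ, ‖x‖ ≤ s → sv (f + g) x = sv f x + sv g x := by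
  constructor
  · refine Summable.of_nonneg_of_le (fun n => ?_) (fun n => ?_) (hf.add hg)
    · exact mul_nonneg (abs_nonneg _) (pow_nonneg hs.le n)
    · rw [map_add, Rat.cast_add, ← add_mul]
      exact mul_le_mul_of_nonneg_right (abs_add_le _ _) (pow_nonneg hs.le n)
  · intro x hx
    have h1 := (EVL_nrm f s x hx hf).of_norm
    have h2 := (EVL_nrm g s x hx hg).of_norm
    unfold sv
    rw [← h1.tsum_add h2]
    apply tsum_congr
    intro n
    rw [map_add, Rat.cast_add, add_mul]

theorem EVL_mul (f g : PowerSeries ℚ) (s : ℝ) (hs : 0 < s)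
    (hf : Summable fun n => |((PowerSeries.coeff n f : ℚ) : ℝ)| * s ^ n)
    (hg : Summable fun n => |((PowerSeries.coeff n g : ℚ) : ℝ)| * s ^ n) :
    (Summable fun n => |((PowerSeries.coeff n (f * g) : ℚ) : ℝ)| * s ^ n) ∧
    ∀ x : ℂ, ‖x‖ ≤ s → sv (f * g) x = sv f x * sv g x := by
  constructor
  · have hf' : Summable fun n => ‖|((PowerSeries.coeff n f : ℚ) : ℝ)| * s ^ n‖ := hf.norm
    have hg' : Summable fun n => ‖|((PowerSeries.coeff n g : ℚ) : ℝ)| * s ^ n‖ := hg.norm
    have h1 := summable_norm_sum_mul_antidiagonal_of_summable_norm hf' hg'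
    refine Summable.of_nonneg_of_le (fun n => ?_) (fun n => ?_) h1
    · exact mul_nonneg (abs_nonneg _) (pow_nonneg hs.le n)
    · rw [PowerSeries.coeff_mul, Rat.cast_sum]
      refine le_trans ?_ (Real.le_norm_self _)
      refine le_trans (mul_le_mul_of_nonneg_right (abs_sum_le_sum_abs _ _)
        (pow_nonneg hs.le n)) ?_
      rw [sum_mul]
      apply le_of_eq
      apply sum_congr rfl
      rintro ⟨i, j⟩ hij
      have hn : i + j = n := mem_antidiagonal.1 hij
      simp only
      rw [Rat.cast_mul, abs_mul, ← hn, pow_add]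
      ring
  · intro x hx
    have h1 := EVL_nrm f s x hx hf
    have h2 := EVL_nrm g s x hx hg
    unfold sv
    rw [tsum_mul_tsum_eq_tsum_sum_antidiagonal_of_summable_norm h1 h2]
    apply tsum_congr
    intro n
    rw [PowerSeries.coeff_mul, Rat.cast_sum, sum_mul]
    apply sum_congr rfl
    rintro ⟨i, j⟩ hij
    have hn : i + j = n := mem_antidiagonal.1 hij
    simp only
    rw [Rat.cast_mul, ← hn, pow_add]
    ring

theorem EVL_pol (p : Polynomial ℚ) (s : ℝ) :
    (Summable fun n => |((PowerSeries.coeff n (p : PowerSeries ℚ) : ℚ) : ℝ)| * s ^ n) ∧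
    ∀ x : ℂ, sv (p : PowerSeries ℚ) x = phx x p := by
  constructor
  · apply summable_of_ne_finset_zero (s := range (p.natDegree + 1))
    intro n hn
    rw [Polynomial.coeff_coe, Polynomial.coeff_eq_zero_of_natDegree_lt
      (by rw [mem_range] at hn; omega)]
    simp
  · intro x
    show _ = p.eval₂ (algebraMap ℚ ℂ) x
    unfold sv
    rw [Polynomial.eval₂_eq_sum_range, tsum_eq_sum (s := range (p.natDegree + 1))]
    · apply sum_congr rfl
      intro n _
      rw [Polynomial.coeff_coe, eq_ratCast]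
    · intro n hn
      rw [Polynomial.coeff_coe, Polynomial.coeff_eq_zero_of_natDegree_lt
        (by rw [mem_range] at hn; omega)]
      simp

theorem EVL_pow (g : PowerSeries ℚ) (s : ℝ) (hs : 0 < s)
    (hg : Summable fun n => |((PowerSeries.coeff n g : ℚ) : ℝ)| * s ^ n) (k : ℕ) :
    (Summable fun n => |((PowerSeries.coeff n (g ^ k) : ℚ) : ℝ)| * s ^ n) ∧
    ∀ x : ℂ, ‖x‖ ≤ s → sv (g ^ k) x = sv g x ^ k := by
  induction k with
  | zero =>
    have h := EVL_pol 1 s
    rw [Polynomial.coe_one] at h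
    rw [pow_zero]
    refine ⟨h.1, fun x _ => ?_⟩
    rw [h.2 x, map_one, pow_zero]
  | succ k ih =>
    have h := EVL_mul (g ^ k) g s hs ih.1 hg
    rw [pow_succ]
    refine ⟨h.1, fun x hx => ?_⟩
    rw [h.2 x hx, ih.2 x hx, pow_succ]

theorem EVL : EVL_stmt := by
  intro P g s hs hg
  induction P using Polynomial.induction_on' with
  | add p q hp hq =>
    have h : ev (p + q) g = ev p g + ev q g := Polynomial.eval₂_add _ _
    have h2 := EVL_add (ev p g) (ev q g) s hs hp.1 hq.1
    rw [h]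
    refine ⟨h2.1, fun x hx => ?_⟩
    rw [h2.2 x hx, hp.2 x hx, hq.2 x hx, Polynomial.eval₂_add]
  | monomial n a =>
    have h : ev (Polynomial.monomial n a) g = (a : PowerSeries ℚ) * g ^ n := by
      unfold ev
      rw [Polynomial.eval₂_monomial]
      rfl
    have h1 := EVL_pol a s
    have h2 := EVL_pow g s hs hg n
    have h3 := EVL_mul (a : PowerSeries ℚ) (g ^ n) s hs h1.1 h2.1
    rw [h]
    refine ⟨h3.1, fun x hx => ?_⟩
    rw [h3.2 x hx, h1.2 x, h2.2 x hx, Polynomial.eval₂_monomial]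

end Pool.Agent.helper35.OT
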