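import Pool.Agent.helper64.OT.SpecM

/-!
# Row ot:HHB (MP_f6e9a2_nt): the Weil bound for the complete sum
-/

set_option autoImplicit false

namespace Pool.Agent.OT

open Finset

theorem HHB : HHB_stmt := by
  intro p _ χ lam hχ h0 h1
  have h10 : (1 : ZMod p) ≠ 0 := one_ne_zero
  have key := Pool.Agent.helper82.Weil.weil_finset χ hχ (Finset.univ : Finset (Fin 2)) (![lam, 1] : Fin 2 → ZMod p)
    (![1, Fintype.card (ZMod p) - 2] : Fin 2 → ℕ) (by
      intro i _
      fin_cases i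
      · exact h0
      · exact h10)
  have e1 : ∀ z : ZMod p, χ (z * ∏ i : Fin 2, (z - (![lam, 1] : Fin 2 → ZMod p) i) ^ (![1, Fintype.card (ZMod p) - 2] : Fin 2 → ℕ) i) =
      χ z * χ (z - lam) * (starRingEnd ℂ) (χ (z - 1)) := by
    intro z
    rw [Fin.prod_univ_two]
    simp only [Matrix.cons_val_zero, Matrix.cons_val_one, pow_one]
    rw [map_mul, map_mul, Pool.Agent.helper82.Weil.conj_chi χ hχ, map_pow]
    ring
  rw [Finset.sum_congr rfl fun z _ => e1 z] at key
  have hc : ((Finset.univ : Finset (Fin 2)).card : ℝ) = 2 := by simp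
  rw [hc, ZMod.card] at key
  unfold HH
  calc ‖∑ z : ZMod p, χ z * χ (z - lam) * (starRingEnd ℂ) (χ (z - 1))‖ ^ 2
      ≤ (2 * Real.sqrt p) ^ 2 := pow_le_pow_left₀ (norm_nonneg _) key 2
    _ = 4 * p := by
      rw [mul_pow, Real.sq_sqrt (Nat.cast_nonneg p)]
      norm_num

end Pool.Agent.OT
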