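import Pool.Agent.helper64.OT.SpecF

set_option autoImplicit false

namespace Pool.Agent.OT

open Finset

theorem WMO : WMO_stmt := by
  intro p _ χ k B β hχ hβ
  classical
  have h1 : ((∑ u : ZMod p, ‖FB χ B β u‖ ^ (2 * k) : ℝ) : ℂ) =
      ∑ x ∈ Fintype.piFinset fun _ : Fin k => B, ∑ y ∈ Fintype.piFinset fun _ : Fin k => B,
        (∏ i, β (x i)) * (starRingEnd ℂ) (∏ i, β (y i)) * Pool.Agent.helper82.Weil.ZZ χ x y := by
    push_cast
    have h2 : ∀ u : ZMod p, ((‖FB χ B β u‖ : ℝ) : ℂ) ^ (2 * k) =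
        ∑ x ∈ Fintype.piFinset fun _ : Fin k => B, ∑ y ∈ Fintype.piFinset fun _ : Fin k => B,
          (∏ i, (β (x i) * χ (u + x i))) * (starRingEnd ℂ) (∏ i, (β (y i) * χ (u + y i))) := by
      intro u
      unfold FB
      rw [pow_mul, ← Complex.mul_conj', mul_pow, ← map_pow, Finset.sum_pow', map_sum,
        Finset.sum_mul_sum]
    simp_rw [h2]
    rw [Finset.sum_comm]
    refine Finset.sum_congr rfl fun x _ => ?_
    rw [Finset.sum_comm]
    refine Finset.sum_congr rfl fun y _ => ?_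
    unfold Pool.Agent.helper82.Weil.ZZ
    rw [Finset.mul_sum]
    refine Finset.sum_congr rfl fun u _ => ?_
    rw [Finset.prod_mul_distrib, Finset.prod_mul_distrib, map_mul]
    have e1 : ∀ z : Fin k → ZMod p, ∏ i, χ (u + z i) = ∏ i, χ (z i + u) := fun z =>
      Finset.prod_congr rfl fun i _ => by rw [add_comm]
    rw [e1 x, e1 y]
    ring
  have h3 : ∑ u : ZMod p, ‖FB χ B β u‖ ^ (2 * k) =
      ‖((∑ u : ZMod p, ‖FB χ B β u‖ ^ (2 * k) : ℝ) : ℂ)‖ := by
    rw [Complex.norm_real, Real.norm_eq_abs, abs_of_nonneg]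
    exact Finset.sum_nonneg fun _ _ => by positivity
  have hprod : ∀ z : Fin k → ZMod p, ‖∏ i, β (z i)‖ ≤ 1 := by
    intro z
    rw [norm_prod]
    exact Finset.prod_le_one (fun _ _ => norm_nonneg _) fun i _ => hβ _
  rw [h3, h1]
  refine (norm_sum_le _ _).trans ?_
  refine (Finset.sum_le_sum fun x _ => norm_sum_le _ _).trans ?_
  have h4 : ∀ x y : Fin k → ZMod p, ‖(∏ i, β (x i)) * (starRingEnd ℂ) (∏ i, β (y i)) *
      Pool.Agent.helper82.Weil.ZZ χ x y‖ ≤ ‖Pool.Agent.helper82.Weil.ZZ χ x y‖ ^ 1 := by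
    intro x y
    rw [norm_mul, norm_mul, RCLike.norm_conj, pow_one]
    have h5 : ‖∏ i, β (x i)‖ * ‖∏ i, β (y i)‖ ≤ 1 :=
      mul_le_one₀ (hprod x) (norm_nonneg _) (hprod y)
    calc ‖∏ i, β (x i)‖ * ‖∏ i, β (y i)‖ * ‖Pool.Agent.helper82.Weil.ZZ χ x y‖
        ≤ 1 * ‖Pool.Agent.helper82.Weil.ZZ χ x y‖ := mul_le_mul_of_nonneg_right h5 (norm_nonneg _)
      _ = _ := one_mul _
  refine (Finset.sum_le_sum fun x _ => Finset.sum_le_sum fun y _ => h4 x y).trans ?_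
  have := Pool.Agent.helper82.Weil.sum_ZZ_pow χ hχ k 1 B
  rw [ZMod.card] at this
  simpa using this

end Pool.Agent.OT
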